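import Pool.Agent.U300.Dressian

set_option autoImplicit false

namespace Pool.Agent.U300.Dressian

open Finset

/-- all subsets with three elements -/
def L : List (Finset (Fin 9)) :=
  [{0, 1, 2},
   {0, 1, 3},
   {0, 1, 4},
   {0, 1, 5},
   {0, 1, 6},
   {0, 1, 7},
   {0, 1, 8},
   {0, 2, 3},
   {0, 2, 4},
   {0, 2, 5},
   {0, 2, 6},
   {0, 2, 7},
   {0, 2, 8},
   {0, 3, 4},
   {0, 3, 5},
   {0, 3, 6},
   {0, 3, 7},
   {0, 3, 8},
   {0, 4, 5},
   {0, 4, 6},
   {0, 4, 7},
   {0, 4, 8},
   {0, 5, 6},
   {0, 5, 7},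
   {0, 5, 8},
   {0, 6, 7},
   {0, 6, 8},
   {0, 7, 8},
   {1, 2, 3},
   {1, 2, 4},
   {1, 2, 5},
   {1, 2, 6},
   {1, 2, 7},
   {1, 2, 8},
   {1, 3, 4},
   {1, 3, 5},
   {1, 3, 6},
   {1, 3, 7},
   {1, 3, 8},
   {1, 4, 5},
   {1, 4, 6},
   {1, 4, 7},
   {1, 4, 8},
   {1, 5, 6},
   {1, 5, 7},
   {1, 5, 8},
   {1, 6, 7},
   {1, 6, 8},
   {1, 7, 8},
   {2, 3, 4},
   {2, 3, 5},
   {2, 3, 6},
   {2, 3, 7},
   {2, 3, 8},
   {2, 4, 5},
   {2, 4, 6},
   {2, 4, 7},
   {2, 4, 8},
   {2, 5, 6},
   {2, 5, 7},
   {2, 5, 8},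
   {2, 6, 7},
   {2, 6, 8},
   {2, 7, 8},
   {3, 4, 5},
   {3, 4, 6},
   {3, 4, 7},
   {3, 4, 8},
   {3, 5, 6},
   {3, 5, 7},
   {3, 5, 8},
   {3, 6, 7},
   {3, 6, 8},
   {3, 7, 8},
   {4, 5, 6},
   {4, 5, 7},
   {4, 5, 8},
   {4, 6, 7},
   {4, 6, 8},
   {4, 7, 8},
   {5, 6, 7},
   {5, 6, 8},
   {5, 7, 8},
   {6, 7, 8}]

theorem mem_L : ∀ B : Finset (Fin 9), B.card = 3 → B ∈ L := by
  decide +kernel

theorem entry {v : Finset (Fin 9) → ℝ} {a b c : Fin 9} {n : ℕ} (h1 : a ≠ b) (h2 : a ≠ c)
    (h3 : b ≠ c) (hT : T (2 ^ (a : ℕ) + 2 ^ (b : ℕ) + 2 ^ (c : ℕ)) = n)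
    (h : v {a, b, c} = lam v * n + (la v a + la v b + la v c)) :
    v {a, b, c} = lam v * w {a, b, c} + ∑ i ∈ ({a, b, c} : Finset (Fin 9)), la v i := by
  rw [w_tri h1 h2 h3, hT, h, Finset.sum_insert (by simp [h1, h2]),
    Finset.sum_insert (by simp [h3]), Finset.sum_singleton]
  ring

theorem main_L {v : Finset (Fin 9) → ℝ} (hv : Refines v) :
    ∀ B ∈ L, v B = lam v * w B + ∑ i ∈ B, la v i := by
  obtain ⟨f012, f013, f014, f015, f016, f017, f018, f023, f024, f025, f026, f027, f028, f034, f035, f036, f037, f038, f045, f046, f047, f048, f056, f057, f058, f067, f068, f078, f123, f124, f125, f126, f127, f128, f134, f135, f136, f137, f138, f145, f146, f147, f148, f156, f157, f158, f167, f168, f178, f234, f235, f236, f237, f238, f245, f246, f247, f248, f256, f257, f258, f267, f268, f278, f345, f346, f347, f348, f356, f357, f358, f367, f368, f378, f456, f457, f458, f467, f468, f478, f567, f568, f578, f678⟩ := table hv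
  unfold L
  refine List.forall_mem_cons.2 ⟨entry (n := 0) (by decide) (by decide) (by decide) (by decide) (by exact_mod_cast f012), ?_⟩
  refine List.forall_mem_cons.2 ⟨entry (n := 0) (by decide) (by decide) (by decide) (by decide) (by exact_mod_cast f013), ?_⟩
  refine List.forall_mem_cons.2 ⟨entry (n := 0) (by decide) (by decide) (by decide) (by decide) (by exact_mod_cast f014), ?_⟩
  refine List.forall_mem_cons.2 ⟨entry (n := 1) (by decide) (by decide) (by decide) (by decide) (by exact_mod_cast f015), ?_⟩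
  refine List.forall_mem_cons.2 ⟨entry (n := 1) (by decide) (by decide) (by decide) (by decide) (by exact_mod_cast f016), ?_⟩
  refine List.forall_mem_cons.2 ⟨entry (n := 2) (by decide) (by decide) (by decide) (by decide) (by exact_mod_cast f017), ?_⟩
  refine List.forall_mem_cons.2 ⟨entry (n := 2) (by decide) (by decide) (by decide) (by decide) (by exact_mod_cast f018), ?_⟩
  refine List.forall_mem_cons.2 ⟨entry (n := 0) (by decide) (by decide) (by decide) (by decide) (by exact_mod_cast f023), ?_⟩
  refine List.forall_mem_cons.2 ⟨entry (n := 1) (by decide) (by decide) (by decide) (by decide) (by exact_mod_cast f024), ?_⟩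
  refine List.forall_mem_cons.2 ⟨entry (n := 1) (by decide) (by decide) (by decide) (by decide) (by exact_mod_cast f025), ?_⟩
  refine List.forall_mem_cons.2 ⟨entry (n := 2) (by decide) (by decide) (by decide) (by decide) (by exact_mod_cast f026), ?_⟩
  refine List.forall_mem_cons.2 ⟨entry (n := 2) (by decide) (by decide) (by decide) (by decide) (by exact_mod_cast f027), ?_⟩
  refine List.forall_mem_cons.2 ⟨entry (n := 3) (by decide) (by decide) (by decide) (by decide) (by exact_mod_cast f028), ?_⟩
  refine List.forall_mem_cons.2 ⟨entry (n := 0) (by decide) (by decide) (by decide) (by decide) (by exact_mod_cast f034), ?_⟩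
  refine List.forall_mem_cons.2 ⟨entry (n := 1) (by decide) (by decide) (by decide) (by decide) (by exact_mod_cast f035), ?_⟩
  refine List.forall_mem_cons.2 ⟨entry (n := 1) (by decide) (by decide) (by decide) (by decide) (by exact_mod_cast f036), ?_⟩
  refine List.forall_mem_cons.2 ⟨entry (n := 2) (by decide) (by decide) (by decide) (by decide) (by exact_mod_cast f037), ?_⟩
  refine List.forall_mem_cons.2 ⟨entry (n := 2) (by decide) (by decide) (by decide) (by decide) (by exact_mod_cast f038), ?_⟩
  refine List.forall_mem_cons.2 ⟨entry (n := 1) (by decide) (by decide) (by decide) (by decide) (by exact_mod_cast f045), ?_⟩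
  refine List.forall_mem_cons.2 ⟨entry (n := 2) (by decide) (by decide) (by decide) (by decide) (by exact_mod_cast f046), ?_⟩
  refine List.forall_mem_cons.2 ⟨entry (n := 2) (by decide) (by decide) (by decide) (by decide) (by exact_mod_cast f047), ?_⟩
  refine List.forall_mem_cons.2 ⟨entry (n := 3) (by decide) (by decide) (by decide) (by decide) (by exact_mod_cast f048), ?_⟩
  refine List.forall_mem_cons.2 ⟨entry (n := 2) (by decide) (by decide) (by decide) (by decide) (by exact_mod_cast f056), ?_⟩
  refine List.forall_mem_cons.2 ⟨entry (n := 3) (by decide) (by decide) (by decide) (by decide) (by exact_mod_cast f057), ?_⟩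
  refine List.forall_mem_cons.2 ⟨entry (n := 3) (by decide) (by decide) (by decide) (by decide) (by exact_mod_cast f058), ?_⟩
  refine List.forall_mem_cons.2 ⟨entry (n := 3) (by decide) (by decide) (by decide) (by decide) (by exact_mod_cast f067), ?_⟩
  refine List.forall_mem_cons.2 ⟨entry (n := 4) (by decide) (by decide) (by decide) (by decide) (by exact_mod_cast f068), ?_⟩
  refine List.forall_mem_cons.2 ⟨entry (n := 4) (by decide) (by decide) (by decide) (by decide) (by exact_mod_cast f078), ?_⟩
  refine List.forall_mem_cons.2 ⟨entry (n := 0) (by decide) (by decide) (by decide) (by decide) (by exact_mod_cast f123), ?_⟩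
  refine List.forall_mem_cons.2 ⟨entry (n := 0) (by decide) (by decide) (by decide) (by decide) (by exact_mod_cast f124), ?_⟩
  refine List.forall_mem_cons.2 ⟨entry (n := 0) (by decide) (by decide) (by decide) (by decide) (by exact_mod_cast f125), ?_⟩
  refine List.forall_mem_cons.2 ⟨entry (n := 0) (by decide) (by decide) (by decide) (by decide) (by exact_mod_cast f126), ?_⟩
  refine List.forall_mem_cons.2 ⟨entry (n := 0) (by decide) (by decide) (by decide) (by decide) (by exact_mod_cast f127), ?_⟩
  refine List.forall_mem_cons.2 ⟨entry (n := 0) (by decide) (by decide) (by decide) (by decide) (by exact_mod_cast f128), ?_⟩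
  refine List.forall_mem_cons.2 ⟨entry (n := 0) (by decide) (by decide) (by decide) (by decide) (by exact_mod_cast f134), ?_⟩
  refine List.forall_mem_cons.2 ⟨entry (n := 0) (by decide) (by decide) (by decide) (by decide) (by exact_mod_cast f135), ?_⟩
  refine List.forall_mem_cons.2 ⟨entry (n := 0) (by decide) (by decide) (by decide) (by decide) (by exact_mod_cast f136), ?_⟩
  refine List.forall_mem_cons.2 ⟨entry (n := 0) (by decide) (by decide) (by decide) (by decide) (by exact_mod_cast f137), ?_⟩
  refine List.forall_mem_cons.2 ⟨entry (n := 0) (by decide) (by decide) (by decide) (by decide) (by exact_mod_cast f138), ?_⟩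
  refine List.forall_mem_cons.2 ⟨entry (n := 0) (by decide) (by decide) (by decide) (by decide) (by exact_mod_cast f145), ?_⟩
  refine List.forall_mem_cons.2 ⟨entry (n := 0) (by decide) (by decide) (by decide) (by decide) (by exact_mod_cast f146), ?_⟩
  refine List.forall_mem_cons.2 ⟨entry (n := 0) (by decide) (by decide) (by decide) (by decide) (by exact_mod_cast f147), ?_⟩
  refine List.forall_mem_cons.2 ⟨entry (n := 0) (by decide) (by decide) (by decide) (by decide) (by exact_mod_cast f148), ?_⟩
  refine List.forall_mem_cons.2 ⟨entry (n := 1) (by decide) (by decide) (by decide) (by decide) (by exact_mod_cast f156), ?_⟩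
  refine List.forall_mem_cons.2 ⟨entry (n := 1) (by decide) (by decide) (by decide) (by decide) (by exact_mod_cast f157), ?_⟩
  refine List.forall_mem_cons.2 ⟨entry (n := 1) (by decide) (by decide) (by decide) (by decide) (by exact_mod_cast f158), ?_⟩
  refine List.forall_mem_cons.2 ⟨entry (n := 1) (by decide) (by decide) (by decide) (by decide) (by exact_mod_cast f167), ?_⟩
  refine List.forall_mem_cons.2 ⟨entry (n := 1) (by decide) (by decide) (by decide) (by decide) (by exact_mod_cast f168), ?_⟩
  refine List.forall_mem_cons.2 ⟨entry (n := 2) (by decide) (by decide) (by decide) (by decide) (by exact_mod_cast f178), ?_⟩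
  refine List.forall_mem_cons.2 ⟨entry (n := 0) (by decide) (by decide) (by decide) (by decide) (by exact_mod_cast f234), ?_⟩
  refine List.forall_mem_cons.2 ⟨entry (n := 0) (by decide) (by decide) (by decide) (by decide) (by exact_mod_cast f235), ?_⟩
  refine List.forall_mem_cons.2 ⟨entry (n := 0) (by decide) (by decide) (by decide) (by decide) (by exact_mod_cast f236), ?_⟩
  refine List.forall_mem_cons.2 ⟨entry (n := 0) (by decide) (by decide) (by decide) (by decide) (by exact_mod_cast f237), ?_⟩
  refine List.forall_mem_cons.2 ⟨entry (n := 0) (by decide) (by decide) (by decide) (by decide) (by exact_mod_cast f238), ?_⟩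
  refine List.forall_mem_cons.2 ⟨entry (n := 1) (by decide) (by decide) (by decide) (by decide) (by exact_mod_cast f245), ?_⟩
  refine List.forall_mem_cons.2 ⟨entry (n := 1) (by decide) (by decide) (by decide) (by decide) (by exact_mod_cast f246), ?_⟩
  refine List.forall_mem_cons.2 ⟨entry (n := 1) (by decide) (by decide) (by decide) (by decide) (by exact_mod_cast f247), ?_⟩
  refine List.forall_mem_cons.2 ⟨entry (n := 1) (by decide) (by decide) (by decide) (by decide) (by exact_mod_cast f248), ?_⟩
  refine List.forall_mem_cons.2 ⟨entry (n := 1) (by decide) (by decide) (by decide) (by decide) (by exact_mod_cast f256), ?_⟩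
  refine List.forall_mem_cons.2 ⟨entry (n := 1) (by decide) (by decide) (by decide) (by decide) (by exact_mod_cast f257), ?_⟩
  refine List.forall_mem_cons.2 ⟨entry (n := 1) (by decide) (by decide) (by decide) (by decide) (by exact_mod_cast f258), ?_⟩
  refine List.forall_mem_cons.2 ⟨entry (n := 2) (by decide) (by decide) (by decide) (by decide) (by exact_mod_cast f267), ?_⟩
  refine List.forall_mem_cons.2 ⟨entry (n := 2) (by decide) (by decide) (by decide) (by decide) (by exact_mod_cast f268), ?_⟩
  refine List.forall_mem_cons.2 ⟨entry (n := 2) (by decide) (by decide) (by decide) (by decide) (by exact_mod_cast f278), ?_⟩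
  refine List.forall_mem_cons.2 ⟨entry (n := 0) (by decide) (by decide) (by decide) (by decide) (by exact_mod_cast f345), ?_⟩
  refine List.forall_mem_cons.2 ⟨entry (n := 0) (by decide) (by decide) (by decide) (by decide) (by exact_mod_cast f346), ?_⟩
  refine List.forall_mem_cons.2 ⟨entry (n := 0) (by decide) (by decide) (by decide) (by decide) (by exact_mod_cast f347), ?_⟩
  refine List.forall_mem_cons.2 ⟨entry (n := 0) (by decide) (by decide) (by decide) (by decide) (by exact_mod_cast f348), ?_⟩
  refine List.forall_mem_cons.2 ⟨entry (n := 1) (by decide) (by decide) (by decide) (by decide) (by exact_mod_cast f356), ?_⟩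
  refine List.forall_mem_cons.2 ⟨entry (n := 1) (by decide) (by decide) (by decide) (by decide) (by exact_mod_cast f357), ?_⟩
  refine List.forall_mem_cons.2 ⟨entry (n := 1) (by decide) (by decide) (by decide) (by decide) (by exact_mod_cast f358), ?_⟩
  refine List.forall_mem_cons.2 ⟨entry (n := 1) (by decide) (by decide) (by decide) (by decide) (by exact_mod_cast f367), ?_⟩
  refine List.forall_mem_cons.2 ⟨entry (n := 1) (by decide) (by decide) (by decide) (by decide) (by exact_mod_cast f368), ?_⟩
  refine List.forall_mem_cons.2 ⟨entry (n := 2) (by decide) (by decide) (by decide) (by decide) (by exact_mod_cast f378), ?_⟩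
  refine List.forall_mem_cons.2 ⟨entry (n := 1) (by decide) (by decide) (by decide) (by decide) (by exact_mod_cast f456), ?_⟩
  refine List.forall_mem_cons.2 ⟨entry (n := 1) (by decide) (by decide) (by decide) (by decide) (by exact_mod_cast f457), ?_⟩
  refine List.forall_mem_cons.2 ⟨entry (n := 1) (by decide) (by decide) (by decide) (by decide) (by exact_mod_cast f458), ?_⟩
  refine List.forall_mem_cons.2 ⟨entry (n := 2) (by decide) (by decide) (by decide) (by decide) (by exact_mod_cast f467), ?_⟩
  refine List.forall_mem_cons.2 ⟨entry (n := 2) (by decide) (by decide) (by decide) (by decide) (by exact_mod_cast f468), ?_⟩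
  refine List.forall_mem_cons.2 ⟨entry (n := 2) (by decide) (by decide) (by decide) (by decide) (by exact_mod_cast f478), ?_⟩
  refine List.forall_mem_cons.2 ⟨entry (n := 2) (by decide) (by decide) (by decide) (by decide) (by exact_mod_cast f567), ?_⟩
  refine List.forall_mem_cons.2 ⟨entry (n := 2) (by decide) (by decide) (by decide) (by decide) (by exact_mod_cast f568), ?_⟩
  refine List.forall_mem_cons.2 ⟨entry (n := 3) (by decide) (by decide) (by decide) (by decide) (by exact_mod_cast f578), ?_⟩
  refine List.forall_mem_cons.2 ⟨entry (n := 3) (by decide) (by decide) (by decide) (by decide) (by exact_mod_cast f678), ?_⟩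
  intro B hB
  exact absurd hB List.not_mem_nil

theorem main {v : Finset (Fin 9) → ℝ} (hv : Refines v) (B : Finset (Fin 9)) (hB : B.card = 3) :
    v B = lam v * w B + ∑ i ∈ B, la v i :=
  main_L hv B (mem_L B hB)

theorem w024 : w {0, 2, 4} = 1 := by
  rw [w_tri (by decide) (by decide) (by decide)]
  have : T (2 ^ ((0 : Fin 9) : ℕ) + 2 ^ ((2 : Fin 9) : ℕ) + 2 ^ ((4 : Fin 9) : ℕ)) = 1 := by decide
  rw [this]; norm_num
theorem w023 : w {0, 2, 3} = 0 := by
  rw [w_tri (by decide) (by decide) (by decide)]
  have : T (2 ^ ((0 : Fin 9) : ℕ) + 2 ^ ((2 : Fin 9) : ℕ) + 2 ^ ((3 : Fin 9) : ℕ)) = 0 := by decide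
  rw [this]; norm_num
theorem w124 : w {1, 2, 4} = 0 := by
  rw [w_tri (by decide) (by decide) (by decide)]
  have : T (2 ^ ((1 : Fin 9) : ℕ) + 2 ^ ((2 : Fin 9) : ℕ) + 2 ^ ((4 : Fin 9) : ℕ)) = 0 := by decide
  rw [this]; norm_num
theorem w123 : w {1, 2, 3} = 0 := by
  rw [w_tri (by decide) (by decide) (by decide)]
  have : T (2 ^ ((1 : Fin 9) : ℕ) + 2 ^ ((2 : Fin 9) : ℕ) + 2 ^ ((3 : Fin 9) : ℕ)) = 0 := by decide
  rw [this]; norm_num
theorem w028 : w {0, 2, 8} = 3 := by
  rw [w_tri (by decide) (by decide) (by decide)]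
  have : T (2 ^ ((0 : Fin 9) : ℕ) + 2 ^ ((2 : Fin 9) : ℕ) + 2 ^ ((8 : Fin 9) : ℕ)) = 3 := by decide
  rw [this]; norm_num
theorem w128 : w {1, 2, 8} = 0 := by
  rw [w_tri (by decide) (by decide) (by decide)]
  have : T (2 ^ ((1 : Fin 9) : ℕ) + 2 ^ ((2 : Fin 9) : ℕ) + 2 ^ ((8 : Fin 9) : ℕ)) = 0 := by decide
  rw [this]; norm_num

theorem sum_tri (g : Fin 9 → ℝ) {a b c : Fin 9} (h1 : a ≠ b) (h2 : a ≠ c) (h3 : b ≠ c) :
    ∑ i ∈ ({a, b, c} : Finset (Fin 9)), g i = g a + g b + g c := by
  rw [Finset.sum_insert (by simp [h1, h2]), Finset.sum_insert (by simp [h3]),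
    Finset.sum_singleton, ← add_assoc]

/-- a function with a trivial subdivision satisfies all ties -/
theorem trivial_lam {v : Finset (Fin 9) → ℝ} {c : Fin 9 → ℝ}
    (h : ∀ B : Finset (Fin 9), B.card = 3 → ∀ B' : Finset (Fin 9), B'.card = 3 →
      v B - ∑ i ∈ B, c i ≤ v B' - ∑ i ∈ B', c i) :
    v {0, 2, 4} - v {0, 2, 3} - v {1, 2, 4} + v {1, 2, 3} = 0 := by
  have c1 : ({0, 2, 4} : Finset (Fin 9)).card = 3 := by decide
  have c2 : ({0, 2, 3} : Finset (Fin 9)).card = 3 := by decide
  have c3 : ({1, 2, 4} : Finset (Fin 9)).card = 3 := by decide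
  have c4 : ({1, 2, 3} : Finset (Fin 9)).card = 3 := by decide
  have e1 := h _ c1 _ c2
  have e2 := h _ c2 _ c1
  have e3 := h _ c3 _ c4
  have e4 := h _ c4 _ c3
  rw [sum_tri c (by decide) (by decide) (by decide), sum_tri c (by decide) (by decide) (by decide)]
    at e1 e2 e3 e4
  linarith

theorem w_nontrivial : ¬ ∃ c : Fin 9 → ℝ, ∀ B : Finset (Fin 9), B.card = 3 →
    ∀ B' : Finset (Fin 9), B'.card = 3 → w B - ∑ i ∈ B, c i ≤ w B' - ∑ i ∈ B', c i := by
  rintro ⟨c, hc⟩
  have h := trivial_lam hc
  rw [w024, w023, w124, w123] at h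
  norm_num at h

theorem lam_nonneg {v : Finset (Fin 9) → ℝ} (hv : Refines v) : 0 ≤ lam v := by
  obtain ⟨c', hc'⟩ := hv (fun i => (C 0 i : ℝ))
  have m1 := hc' (mem_cell 0 (a := 0) (b := 2) (c := 3) (by decide) (by decide) (by decide) (by decide))
  have m2 := hc' (mem_cell 0 (a := 1) (b := 2) (c := 4) (by decide) (by decide) (by decide) (by decide))
  have m3 := hc' (mem_cell 0 (a := 1) (b := 2) (c := 3) (by decide) (by decide) (by decide) (by decide))
  have c1 : ({0, 2, 4} : Finset (Fin 9)).card = 3 := by decide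
  have e1 := m1.2 _ c1
  have e2 := m2.2 _ m3.1
  rw [sum_tri c' (by decide) (by decide) (by decide), sum_tri c' (by decide) (by decide) (by decide)]
    at e1 e2
  unfold lam
  linarith

/-- every coarsening of the subdivision induced by `w` is trivial or induced by `w` -/
theorem ray (v : Finset (Fin 9) → ℝ) (hv : Refines v) :
    (∃ c : Fin 9 → ℝ, ∀ B : Finset (Fin 9), B.card = 3 → ∀ B' : Finset (Fin 9), B'.card = 3 →
      v B - ∑ i ∈ B, c i ≤ v B' - ∑ i ∈ B', c i) ∨
    ((∀ c : Fin 9 → ℝ, ∃ c' : Fin 9 → ℝ, cell w c = cell v c') ∧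
      (∀ c : Fin 9 → ℝ, ∃ c' : Fin 9 → ℝ, cell v c = cell w c')) := by
  have hm := main hv
  rcases (lam_nonneg hv).eq_or_lt with h0 | hpos
  · left
    refine ⟨la v, fun B hB B' hB' => ?_⟩
    rw [hm B hB, hm B' hB', ← h0]
    linarith
  · right
    constructor
    · intro c
      refine ⟨fun i => lam v * c i + la v i, ?_⟩
      ext B
      refine and_congr_right fun hB => forall_congr' fun B' => forall_congr' fun hB' => ?_
      rw [hm B hB, hm B' hB', Finset.sum_add_distrib, Finset.sum_add_distrib, ← Finset.mul_sum,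
        ← Finset.mul_sum]
      constructor
      · intro h
        have := mul_le_mul_of_nonneg_left h hpos.le
        linarith
      · intro h
        refine le_of_mul_le_mul_left ?_ hpos
        linarith
    · intro c
      refine ⟨fun i => (lam v)⁻¹ * (c i - la v i), ?_⟩
      ext B
      refine and_congr_right fun hB => forall_congr' fun B' => forall_congr' fun hB' => ?_
      rw [hm B hB, hm B' hB', ← Finset.mul_sum, ← Finset.mul_sum, Finset.sum_sub_distrib,
        Finset.sum_sub_distrib]
      have hi : ∀ x y : ℝ, lam v * (x - (lam v)⁻¹ * y) = lam v * x - y := by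
        intro x y
        rw [mul_sub, ← mul_assoc, mul_inv_cancel₀ hpos.ne', one_mul]
      constructor
      · intro h
        refine le_of_mul_le_mul_left ?_ hpos
        rw [hi, hi]
        linarith
      · intro h
        have h2 := mul_le_mul_of_nonneg_left h hpos.le
        rw [hi, hi] at h2
        linarith

/-- the corank function of a matroid -/
noncomputable def corank (M : Matroid (Fin 9)) (B : Finset (Fin 9)) : ℝ :=
  ((3 : ℕ) : ℝ) - ((M.eRk (B : Set (Fin 9))).toNat : ℝ)

theorem eRk_coe (M : Matroid (Fin 9)) (X : Set (Fin 9)) :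
    ((M.eRk X).toNat : ℕ∞) = M.eRk X := by
  apply ENat.natCast_toNat
  intro h
  have h1 := M.eRk_le_encard X
  rw [h] at h1
  exact (Set.toFinite X).encard_lt_top.ne (top_le_iff.1 h1)

theorem rank_step (M : Matroid (Fin 9)) (a : Fin 9) (X : Set (Fin 9)) :
    (M.eRk (insert a X)).toNat = (M.eRk X).toNat ∨
      (M.eRk (insert a X)).toNat = (M.eRk X).toNat + 1 := by
  have h1 := M.eRk_mono (Set.subset_insert a X)
  have h2 := M.eRk_insert_le_add_one a X
  rw [← eRk_coe M X, ← eRk_coe M (insert a X)] at h1 h2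
  have h3 : (M.eRk X).toNat ≤ (M.eRk (insert a X)).toNat := by exact_mod_cast h1
  have h4 : (M.eRk (insert a X)).toNat ≤ (M.eRk X).toNat + 1 := by exact_mod_cast h2
  omega

/-- the difference of the coranks of two adjacent bases -/
theorem diff_int (M : Matroid (Fin 9)) (p : Fin 9) :
    ∃ z : ℤ, -1 ≤ z ∧ z ≤ 1 ∧ corank M {0, 2, p} - corank M {1, 2, p} = (z : ℝ) := by
  have h0 := rank_step M 0 (({2, p} : Finset (Fin 9)) : Set (Fin 9))
  have h1 := rank_step M 1 (({2, p} : Finset (Fin 9)) : Set (Fin 9))
  have e0 : (({0, 2, p} : Finset (Fin 9)) : Set (Fin 9)) =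
      insert 0 (({2, p} : Finset (Fin 9)) : Set (Fin 9)) := by push_cast; rfl
  have e1 : (({1, 2, p} : Finset (Fin 9)) : Set (Fin 9)) =
      insert 1 (({2, p} : Finset (Fin 9)) : Set (Fin 9)) := by push_cast; rfl
  refine ⟨((M.eRk (({1, 2, p} : Finset (Fin 9)) : Set (Fin 9))).toNat : ℤ) -
    ((M.eRk (({0, 2, p} : Finset (Fin 9)) : Set (Fin 9))).toNat : ℤ), ?_, ?_, ?_⟩
  · rw [e0, e1]; omega
  · rw [e0, e1]; omega
  · unfold corank
    push_cast
    ring

theorem no_matroid (M : Matroid (Fin 9))
    (h1 : ∀ c : Fin 9 → ℝ, ∃ c' : Fin 9 → ℝ, cell w c = cell (corank M) c')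
    (h2 : ∀ c : Fin 9 → ℝ, ∃ c' : Fin 9 → ℝ, cell (corank M) c = cell w c') : False := by
  have hv : Refines (corank M) := fun c => by
    obtain ⟨c', hc'⟩ := h1 c
    exact ⟨c', hc'.le⟩
  have hm := main hv
  have hz : lam (corank M) = 0 := by
    obtain ⟨z3, l3, u3, hz3⟩ := diff_int M 3
    obtain ⟨z4, l4, u4, hz4⟩ := diff_int M 4
    obtain ⟨z8, l8, u8, hz8⟩ := diff_int M 8
    have e1 : lam (corank M) = ((z4 - z3 : ℤ) : ℝ) := by
      push_cast
      rw [← hz4, ← hz3]
      unfold lam
      ring
    have e2 : 3 * lam (corank M) = ((z8 - z3 : ℤ) : ℝ) := by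
      push_cast
      rw [← hz8, ← hz3, hm {0, 2, 8} (by decide), hm {1, 2, 8} (by decide),
        hm {0, 2, 3} (by decide), hm {1, 2, 3} (by decide), w028, w128, w023, w123,
        sum_tri _ (by decide) (by decide) (by decide), sum_tri _ (by decide) (by decide) (by decide),
        sum_tri _ (by decide) (by decide) (by decide), sum_tri _ (by decide) (by decide) (by decide)]
      ring
    have e3 : 3 * (z4 - z3) = z8 - z3 := by
      have : ((3 * (z4 - z3) : ℤ) : ℝ) = ((z8 - z3 : ℤ) : ℝ) := by
        rw [← e2, e1]; push_cast; ring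
      exact_mod_cast this
    have e4 : z4 - z3 = 0 := by omega
    rw [e1, e4]; norm_num
  obtain ⟨c', hc'⟩ := h2 (la (corank M))
  apply w_nontrivial
  refine ⟨c', fun B hB B' hB' => ?_⟩
  have hmem : B ∈ cell (corank M) (la (corank M)) := by
    refine ⟨hB, fun B'' hB'' => ?_⟩
    rw [hm B hB, hm B'' hB'', hz]
    linarith
  rw [hc'] at hmem
  exact hmem.2 B' hB'

end Pool.Agent.U300.Dressian
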