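import Mathlib

/-!
# A ray of the Dressian `Dr(3, 9)` that is not a corank subdivision

The six points `(0,0), (1,0), (1,1), (2,1), (2,2), (3,2)` of the tropical plane form a rigid
configuration: each of them lies on two rays of the tropical lines centred at earlier ones.  The
tropical maximal minors of the `3 x 9` matrix `(I | V)`, where the columns of `V` are these points,
form a tropical Pluecker vector `w`.  The subdivision of the hypersimplex `Delta(3, 9)` induced by
`w` has six maximal cells, all of them containing the vertex `e_0 + e_1 + e_2`.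
-/

set_option autoImplicit false

namespace Pool.Agent.U300.Dressian

open Finset

/-- binary code of a subset of `{0, ..., 8}` -/
def code (B : Finset (Fin 9)) : ℕ := ∑ i ∈ B, 2 ^ (i : ℕ)

/-- the values of the tropical Pluecker vector, as octal digits -/
def big : ℕ := 0x30000000000000000000000030000000000020000020020a0000000000000000000000002000000000002000001002060000000000001000001001058000000001018000010018400000000000000000000000002000000000002000001002058000000000001000001001058000000001010000010010400000000000001000001001050000000001010000008010200000000001008000008008200000000008000000000000000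

/-- the digit at position `c` -/
def T (c : ℕ) : ℕ := (big >>> (3 * c)) % 8

/-- the tropical Pluecker vector with natural values -/
def wn (B : Finset (Fin 9)) : ℕ := T (code B)

/-- the tropical Pluecker vector -/
noncomputable def w (B : Finset (Fin 9)) : ℝ := (wn B : ℝ)

theorem code_tri {a b c : Fin 9} (h1 : a ≠ b) (h2 : a ≠ c) (h3 : b ≠ c) :
    code {a, b, c} = 2 ^ (a : ℕ) + 2 ^ (b : ℕ) + 2 ^ (c : ℕ) := by
  unfold code
  rw [Finset.sum_insert (by simp [h1, h2]), Finset.sum_insert (by simp [h3]), Finset.sum_singleton,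
    add_assoc]

theorem w_tri {a b c : Fin 9} (h1 : a ≠ b) (h2 : a ≠ c) (h3 : b ≠ c) :
    w {a, b, c} = (T (2 ^ (a : ℕ) + 2 ^ (b : ℕ) + 2 ^ (c : ℕ)) : ℝ) := by
  unfold w wn
  rw [code_tri h1 h2 h3]

/-- the three-term relation -/
def okP (s i j k l : ℕ) : Bool :=
  let A := T (2 ^ i + 2 ^ j + 2 ^ s) + T (2 ^ k + 2 ^ l + 2 ^ s)
  let B := T (2 ^ i + 2 ^ k + 2 ^ s) + T (2 ^ j + 2 ^ l + 2 ^ s)
  let C := T (2 ^ i + 2 ^ l + 2 ^ s) + T (2 ^ j + 2 ^ k + 2 ^ s)
  decide ((A = B ∧ A ≤ C) ∨ (A = C ∧ A ≤ B) ∨ (B = C ∧ B ≤ A))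

/-- distinctness -/
def dist5 (s i j k l : ℕ) : Bool :=
  decide (i ≠ s) && decide (j ≠ s) && decide (i ≠ j) && decide (k ≠ s) && decide (i ≠ k) &&
    decide (j ≠ k) && decide (l ≠ s) && decide (i ≠ l) && decide (j ≠ l) && decide (k ≠ l)

theorem all_ok' : ∀ s i j k l : Fin 9, (!dist5 s i j k l || okP s i j k l) = true := by
  decide +kernel

theorem all_ok (s i j k l : Fin 9) (h1 : i ≠ s) (h2 : j ≠ s) (h3 : i ≠ j) (h4 : k ≠ s)
    (h5 : i ≠ k) (h6 : j ≠ k) (h7 : l ≠ s) (h8 : i ≠ l) (h9 : j ≠ l) (h10 : k ≠ l) :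
    okP s i j k l = true := by
  have h := all_ok' s i j k l
  have hd : dist5 s i j k l = true := by
    simp only [dist5, Bool.and_eq_true, decide_eq_true_eq, ne_eq, ← Fin.ext_iff]
    exact ⟨⟨⟨⟨⟨⟨⟨⟨⟨h1, h2⟩, h3⟩, h4⟩, h5⟩, h6⟩, h7⟩, h8⟩, h9⟩, h10⟩
  rw [hd] at h
  simpa using h

theorem pluecker (S : Finset (Fin 9)) (i j k l : Fin 9) (hS : S.card + 2 = 3)
    (hi : i ∉ S) (hj : j ∉ S) (hk : k ∉ S) (hl : l ∉ S)
    (hij : i ≠ j) (hik : i ≠ k) (hil : i ≠ l) (hjk : j ≠ k) (hjl : j ≠ l) (hkl : k ≠ l) :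
    ((w (insert i (insert j S)) + w (insert k (insert l S))
            = w (insert i (insert k S)) + w (insert j (insert l S)) ∧
          w (insert i (insert j S)) + w (insert k (insert l S))
            ≤ w (insert i (insert l S)) + w (insert j (insert k S))) ∨
         (w (insert i (insert j S)) + w (insert k (insert l S))
            = w (insert i (insert l S)) + w (insert j (insert k S)) ∧
          w (insert i (insert j S)) + w (insert k (insert l S))
            ≤ w (insert i (insert k S)) + w (insert j (insert l S))) ∨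
         (w (insert i (insert k S)) + w (insert j (insert l S))
            = w (insert i (insert l S)) + w (insert j (insert k S)) ∧
          w (insert i (insert k S)) + w (insert j (insert l S))
            ≤ w (insert i (insert j S)) + w (insert k (insert l S)))) := by
  obtain ⟨s, rfl⟩ := Finset.card_eq_one.1 (by omega : S.card = 1)
  rw [Finset.mem_singleton] at hi hj hk hl
  have h := all_ok s i j k l hi hj hij hk hik hjk hl hil hjl hkl
  unfold okP at h
  simp only [decide_eq_true_eq] at h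
  rw [w_tri hij hi hj, w_tri hkl hk hl, w_tri hik hi hk, w_tri hjl hj hl, w_tri hil hi hl,
    w_tri hjk hj hk]
  exact_mod_cast h

/-- the six cells: linear functionals `c` -/
def C (k : Fin 6) (i : Fin 9) : ℤ :=
  (match k with

  | 0 => ![0, 0, 0, 0, 0, 0, 0, 0, 0]
  | 1 => ![0, -1, 0, -1, 0, 0, 0, 0, 0]
  | 2 => ![0, -1, -1, -1, -1, 0, 0, 0, 0]
  | 3 => ![0, -2, -1, -2, -1, -1, 0, 0, 0]
  | 4 => ![0, -2, -2, -2, -2, -1, -1, 0, 0]
  | 5 => ![0, -3, -2, -3, -2, -2, -1, -1, 0]
   : Fin 9 → ℤ) i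

/-- the six cells: minimal values -/
def m (k : Fin 6) : ℤ := ![0, 1, 2, 3, 4, 5] k

theorem cells_ok : ∀ (k : Fin 6) (a b : Fin 9), a ≠ b → ∀ c : Fin 9, a ≠ c → b ≠ c →
    m k ≤ (T (2 ^ (a : ℕ) + 2 ^ (b : ℕ) + 2 ^ (c : ℕ)) : ℤ) - (C k a + C k b + C k c) := by
  decide +kernel

theorem cell_le (k : Fin 6) (B : Finset (Fin 9)) (hB : B.card = 3) :
    (m k : ℝ) ≤ w B - ∑ i ∈ B, (C k i : ℝ) := by
  obtain ⟨a, b, c, h1, h2, h3, rfl⟩ := Finset.card_eq_three.1 hB
  have h := cells_ok k a b h1 c h2 h3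
  rw [w_tri h1 h2 h3, Finset.sum_insert (by simp [h1, h2]), Finset.sum_insert (by simp [h3]),
    Finset.sum_singleton, ← add_assoc]
  exact_mod_cast h

/-- the cell of the subdivision induced by `v` at the functional `c` -/
def cell (v : Finset (Fin 9) → ℝ) (c : Fin 9 → ℝ) : Set (Finset (Fin 9)) :=
  {B : Finset (Fin 9) | B.card = 3 ∧ ∀ B' : Finset (Fin 9), B'.card = 3 →
              v B - ∑ i ∈ B, c i ≤ v B' - ∑ i ∈ B', c i}

/-- the subdivision induced by `w` refines the one induced by `v` -/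
def Refines (v : Finset (Fin 9) → ℝ) : Prop :=
  ∀ c : Fin 9 → ℝ, ∃ c' : Fin 9 → ℝ, cell w c ⊆ cell v c'

theorem mem_cell (k : Fin 6) {a b c : Fin 9} (h1 : a ≠ b) (h2 : a ≠ c) (h3 : b ≠ c)
    (h : (T (2 ^ (a : ℕ) + 2 ^ (b : ℕ) + 2 ^ (c : ℕ)) : ℤ) - (C k a + C k b + C k c) = m k) :
    ({a, b, c} : Finset (Fin 9)) ∈ cell w (fun i => (C k i : ℝ)) := by
  refine ⟨Finset.card_eq_three.2 ⟨a, b, c, h1, h2, h3, rfl⟩, fun B' hB' => ?_⟩
  refine le_trans (le_of_eq ?_) (cell_le k B' hB')
  rw [w_tri h1 h2 h3, Finset.sum_insert (by simp [h1, h2]), Finset.sum_insert (by simp [h3]),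
    Finset.sum_singleton, ← add_assoc]
  exact_mod_cast h

theorem cell012 : ∀ k : Fin 6, (T (2 ^ ((0 : Fin 9) : ℕ) + 2 ^ ((1 : Fin 9) : ℕ) +
    2 ^ ((2 : Fin 9) : ℕ)) : ℤ) - (C k 0 + C k 1 + C k 2) = m k := by
  decide +kernel

/-- On each of the six cells a coarser `v` is affine. -/
theorem affine_on {v : Finset (Fin 9) → ℝ} (hv : Refines v) (k : Fin 6) :
    ∃ (μ : ℝ) (c' : Fin 9 → ℝ), ∀ a b c : Fin 9, a ≠ b → a ≠ c → b ≠ c →
      (T (2 ^ (a : ℕ) + 2 ^ (b : ℕ) + 2 ^ (c : ℕ)) : ℤ) - (C k a + C k b + C k c) = m k →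
      v {a, b, c} = μ + (c' a + c' b + c' c) := by
  obtain ⟨c', hc'⟩ := hv (fun i => (C k i : ℝ))
  have h012 := cell012 k
  have hm := hc' (mem_cell k (by decide) (by decide) (by decide) h012)
  refine ⟨v {0, 1, 2} - ∑ i ∈ ({0, 1, 2} : Finset (Fin 9)), c' i, c', ?_⟩
  intro a b c h1 h2 h3 h
  have hB := hc' (mem_cell k h1 h2 h3 h)
  have e1 := hm.2 _ hB.1
  have e2 := hB.2 _ hm.1
  have e3 : ∑ i ∈ ({a, b, c} : Finset (Fin 9)), c' i = c' a + c' b + c' c := by
    rw [Finset.sum_insert (by simp [h1, h2]), Finset.sum_insert (by simp [h3]),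
      Finset.sum_singleton, ← add_assoc]
  rw [e3] at e1 e2
  linarith

/-- a tie: four bases in a common cell -/
theorem tie {v : Finset (Fin 9) → ℝ} (hv : Refines v) (k : Fin 6) (a b c a' b' c' x y z x' y' z' : Fin 9)
    (h1 : a ≠ b ∧ a ≠ c ∧ b ≠ c ∧
      (T (2 ^ (a : ℕ) + 2 ^ (b : ℕ) + 2 ^ (c : ℕ)) : ℤ) - (C k a + C k b + C k c) = m k)
    (h2 : a' ≠ b' ∧ a' ≠ c' ∧ b' ≠ c' ∧
      (T (2 ^ (a' : ℕ) + 2 ^ (b' : ℕ) + 2 ^ (c' : ℕ)) : ℤ) - (C k a' + C k b' + C k c') = m k)
    (h3 : x ≠ y ∧ x ≠ z ∧ y ≠ z ∧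
      (T (2 ^ (x : ℕ) + 2 ^ (y : ℕ) + 2 ^ (z : ℕ)) : ℤ) - (C k x + C k y + C k z) = m k)
    (h4 : x' ≠ y' ∧ x' ≠ z' ∧ y' ≠ z' ∧
      (T (2 ^ (x' : ℕ) + 2 ^ (y' : ℕ) + 2 ^ (z' : ℕ)) : ℤ) - (C k x' + C k y' + C k z') = m k)
    (h5 : ∀ g : Fin 9 → ℝ, g a + g b + g c + (g a' + g b' + g c') =
      g x + g y + g z + (g x' + g y' + g z')) :
    v {a, b, c} + v {a', b', c'} = v {x, y, z} + v {x', y', z'} := by
  obtain ⟨μ, g, hg⟩ := affine_on hv k
  rw [hg a b c h1.1 h1.2.1 h1.2.2.1 h1.2.2.2, hg a' b' c' h2.1 h2.2.1 h2.2.2.1 h2.2.2.2,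
    hg x y z h3.1 h3.2.1 h3.2.2.1 h3.2.2.2, hg x' y' z' h4.1 h4.2.1 h4.2.2.1 h4.2.2.2]
  linarith [h5 g]

/-- the base point of the lineality space -/
noncomputable def la (v : Finset (Fin 9) → ℝ) : Fin 9 → ℝ :=
  let a0 := (v {0, 1, 2} + (v {0, 2, 3} - v {1, 2, 3}) + (v {0, 1, 3} - v {1, 2, 3})) / 3
  let a1 := a0 - (v {0, 2, 3} - v {1, 2, 3})
  let a2 := a0 - (v {0, 1, 3} - v {1, 2, 3})
  ![a0, a1, a2, v {1, 2, 3} - a1 - a2, v {1, 2, 4} - a1 - a2, v {1, 2, 5} - a1 - a2,
    v {1, 2, 6} - a1 - a2, v {1, 2, 7} - a1 - a2, v {1, 2, 8} - a1 - a2]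

/-- the scale -/
noncomputable def lam (v : Finset (Fin 9) → ℝ) : ℝ :=
  v {0, 2, 4} - v {0, 2, 3} - v {1, 2, 4} + v {1, 2, 3}

theorem table {v : Finset (Fin 9) → ℝ} (hv : Refines v) :
    v {0, 1, 2} = lam v * 0 + (la v 0 + la v 1 + la v 2) ∧
    v {0, 1, 3} = lam v * 0 + (la v 0 + la v 1 + la v 3) ∧
    v {0, 1, 4} = lam v * 0 + (la v 0 + la v 1 + la v 4) ∧
    v {0, 1, 5} = lam v * 1 + (la v 0 + la v 1 + la v 5) ∧
    v {0, 1, 6} = lam v * 1 + (la v 0 + la v 1 + la v 6) ∧
    v {0, 1, 7} = lam v * 2 + (la v 0 + la v 1 + la v 7) ∧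
    v {0, 1, 8} = lam v * 2 + (la v 0 + la v 1 + la v 8) ∧
    v {0, 2, 3} = lam v * 0 + (la v 0 + la v 2 + la v 3) ∧
    v {0, 2, 4} = lam v * 1 + (la v 0 + la v 2 + la v 4) ∧
    v {0, 2, 5} = lam v * 1 + (la v 0 + la v 2 + la v 5) ∧
    v {0, 2, 6} = lam v * 2 + (la v 0 + la v 2 + la v 6) ∧
    v {0, 2, 7} = lam v * 2 + (la v 0 + la v 2 + la v 7) ∧
    v {0, 2, 8} = lam v * 3 + (la v 0 + la v 2 + la v 8) ∧
    v {0, 3, 4} = lam v * 0 + (la v 0 + la v 3 + la v 4) ∧
    v {0, 3, 5} = lam v * 1 + (la v 0 + la v 3 + la v 5) ∧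
    v {0, 3, 6} = lam v * 1 + (la v 0 + la v 3 + la v 6) ∧
    v {0, 3, 7} = lam v * 2 + (la v 0 + la v 3 + la v 7) ∧
    v {0, 3, 8} = lam v * 2 + (la v 0 + la v 3 + la v 8) ∧
    v {0, 4, 5} = lam v * 1 + (la v 0 + la v 4 + la v 5) ∧
    v {0, 4, 6} = lam v * 2 + (la v 0 + la v 4 + la v 6) ∧
    v {0, 4, 7} = lam v * 2 + (la v 0 + la v 4 + la v 7) ∧
    v {0, 4, 8} = lam v * 3 + (la v 0 + la v 4 + la v 8) ∧
    v {0, 5, 6} = lam v * 2 + (la v 0 + la v 5 + la v 6) ∧
    v {0, 5, 7} = lam v * 3 + (la v 0 + la v 5 + la v 7) ∧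
    v {0, 5, 8} = lam v * 3 + (la v 0 + la v 5 + la v 8) ∧
    v {0, 6, 7} = lam v * 3 + (la v 0 + la v 6 + la v 7) ∧
    v {0, 6, 8} = lam v * 4 + (la v 0 + la v 6 + la v 8) ∧
    v {0, 7, 8} = lam v * 4 + (la v 0 + la v 7 + la v 8) ∧
    v {1, 2, 3} = lam v * 0 + (la v 1 + la v 2 + la v 3) ∧
    v {1, 2, 4} = lam v * 0 + (la v 1 + la v 2 + la v 4) ∧
    v {1, 2, 5} = lam v * 0 + (la v 1 + la v 2 + la v 5) ∧
    v {1, 2, 6} = lam v * 0 + (la v 1 + la v 2 + la v 6) ∧
    v {1, 2, 7} = lam v * 0 + (la v 1 + la v 2 + la v 7) ∧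
    v {1, 2, 8} = lam v * 0 + (la v 1 + la v 2 + la v 8) ∧
    v {1, 3, 4} = lam v * 0 + (la v 1 + la v 3 + la v 4) ∧
    v {1, 3, 5} = lam v * 0 + (la v 1 + la v 3 + la v 5) ∧
    v {1, 3, 6} = lam v * 0 + (la v 1 + la v 3 + la v 6) ∧
    v {1, 3, 7} = lam v * 0 + (la v 1 + la v 3 + la v 7) ∧
    v {1, 3, 8} = lam v * 0 + (la v 1 + la v 3 + la v 8) ∧
    v {1, 4, 5} = lam v * 0 + (la v 1 + la v 4 + la v 5) ∧
    v {1, 4, 6} = lam v * 0 + (la v 1 + la v 4 + la v 6) ∧
    v {1, 4, 7} = lam v * 0 + (la v 1 + la v 4 + la v 7) ∧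
    v {1, 4, 8} = lam v * 0 + (la v 1 + la v 4 + la v 8) ∧
    v {1, 5, 6} = lam v * 1 + (la v 1 + la v 5 + la v 6) ∧
    v {1, 5, 7} = lam v * 1 + (la v 1 + la v 5 + la v 7) ∧
    v {1, 5, 8} = lam v * 1 + (la v 1 + la v 5 + la v 8) ∧
    v {1, 6, 7} = lam v * 1 + (la v 1 + la v 6 + la v 7) ∧
    v {1, 6, 8} = lam v * 1 + (la v 1 + la v 6 + la v 8) ∧
    v {1, 7, 8} = lam v * 2 + (la v 1 + la v 7 + la v 8) ∧
    v {2, 3, 4} = lam v * 0 + (la v 2 + la v 3 + la v 4) ∧
    v {2, 3, 5} = lam v * 0 + (la v 2 + la v 3 + la v 5) ∧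
    v {2, 3, 6} = lam v * 0 + (la v 2 + la v 3 + la v 6) ∧
    v {2, 3, 7} = lam v * 0 + (la v 2 + la v 3 + la v 7) ∧
    v {2, 3, 8} = lam v * 0 + (la v 2 + la v 3 + la v 8) ∧
    v {2, 4, 5} = lam v * 1 + (la v 2 + la v 4 + la v 5) ∧
    v {2, 4, 6} = lam v * 1 + (la v 2 + la v 4 + la v 6) ∧
    v {2, 4, 7} = lam v * 1 + (la v 2 + la v 4 + la v 7) ∧
    v {2, 4, 8} = lam v * 1 + (la v 2 + la v 4 + la v 8) ∧
    v {2, 5, 6} = lam v * 1 + (la v 2 + la v 5 + la v 6) ∧
    v {2, 5, 7} = lam v * 1 + (la v 2 + la v 5 + la v 7) ∧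
    v {2, 5, 8} = lam v * 1 + (la v 2 + la v 5 + la v 8) ∧
    v {2, 6, 7} = lam v * 2 + (la v 2 + la v 6 + la v 7) ∧
    v {2, 6, 8} = lam v * 2 + (la v 2 + la v 6 + la v 8) ∧
    v {2, 7, 8} = lam v * 2 + (la v 2 + la v 7 + la v 8) ∧
    v {3, 4, 5} = lam v * 0 + (la v 3 + la v 4 + la v 5) ∧
    v {3, 4, 6} = lam v * 0 + (la v 3 + la v 4 + la v 6) ∧
    v {3, 4, 7} = lam v * 0 + (la v 3 + la v 4 + la v 7) ∧
    v {3, 4, 8} = lam v * 0 + (la v 3 + la v 4 + la v 8) ∧
    v {3, 5, 6} = lam v * 1 + (la v 3 + la v 5 + la v 6) ∧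
    v {3, 5, 7} = lam v * 1 + (la v 3 + la v 5 + la v 7) ∧
    v {3, 5, 8} = lam v * 1 + (la v 3 + la v 5 + la v 8) ∧
    v {3, 6, 7} = lam v * 1 + (la v 3 + la v 6 + la v 7) ∧
    v {3, 6, 8} = lam v * 1 + (la v 3 + la v 6 + la v 8) ∧
    v {3, 7, 8} = lam v * 2 + (la v 3 + la v 7 + la v 8) ∧
    v {4, 5, 6} = lam v * 1 + (la v 4 + la v 5 + la v 6) ∧
    v {4, 5, 7} = lam v * 1 + (la v 4 + la v 5 + la v 7) ∧
    v {4, 5, 8} = lam v * 1 + (la v 4 + la v 5 + la v 8) ∧
    v {4, 6, 7} = lam v * 2 + (la v 4 + la v 6 + la v 7) ∧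
    v {4, 6, 8} = lam v * 2 + (la v 4 + la v 6 + la v 8) ∧
    v {4, 7, 8} = lam v * 2 + (la v 4 + la v 7 + la v 8) ∧
    v {5, 6, 7} = lam v * 2 + (la v 5 + la v 6 + la v 7) ∧
    v {5, 6, 8} = lam v * 2 + (la v 5 + la v 6 + la v 8) ∧
    v {5, 7, 8} = lam v * 3 + (la v 5 + la v 7 + la v 8) ∧
    v {6, 7, 8} = lam v * 3 + (la v 6 + la v 7 + la v 8) := by
  have b0 : la v 0 = (v {0, 1, 2} + (v {0, 2, 3} - v {1, 2, 3}) + (v {0, 1, 3} - v {1, 2, 3})) / 3 := rfl
  have b1 : la v 1 = la v 0 - (v {0, 2, 3} - v {1, 2, 3}) := rfl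
  have b2 : la v 2 = la v 0 - (v {0, 1, 3} - v {1, 2, 3}) := rfl
  have b3 : la v 3 = v {1, 2, 3} - la v 1 - la v 2 := rfl
  have b4 : la v 4 = v {1, 2, 4} - la v 1 - la v 2 := rfl
  have b5 : la v 5 = v {1, 2, 5} - la v 1 - la v 2 := rfl
  have b6 : la v 6 = v {1, 2, 6} - la v 1 - la v 2 := rfl
  have b7 : la v 7 = v {1, 2, 7} - la v 1 - la v 2 := rfl
  have b8 : la v 8 = v {1, 2, 8} - la v 1 - la v 2 := rfl
  have bl : lam v = v {0, 2, 4} - v {0, 2, 3} - v {1, 2, 4} + v {1, 2, 3} := rfl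
  generalize la v 0 = a0 at *
  generalize la v 1 = a1 at *
  generalize la v 2 = a2 at *
  generalize la v 3 = a3 at *
  generalize la v 4 = a4 at *
  generalize la v 5 = a5 at *
  generalize la v 6 = a6 at *
  generalize la v 7 = a7 at *
  generalize la v 8 = a8 at *
  generalize lam v = t at *
  have f012 : v {0, 1, 2} = t * 0 + (a0 + a1 + a2) := by linear_combination (-3) * b0 - b1 - b2
  have f123 : v {1, 2, 3} = t * 0 + (a1 + a2 + a3) := by linear_combination (-1) * b3
  have f124 : v {1, 2, 4} = t * 0 + (a1 + a2 + a4) := by linear_combination (-1) * b4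
  have f125 : v {1, 2, 5} = t * 0 + (a1 + a2 + a5) := by linear_combination (-1) * b5
  have f126 : v {1, 2, 6} = t * 0 + (a1 + a2 + a6) := by linear_combination (-1) * b6
  have f127 : v {1, 2, 7} = t * 0 + (a1 + a2 + a7) := by linear_combination (-1) * b7
  have f128 : v {1, 2, 8} = t * 0 + (a1 + a2 + a8) := by linear_combination (-1) * b8
  have f023 : v {0, 2, 3} = t * 0 + (a0 + a2 + a3) := by linear_combination b1 - b3
  have f013 : v {0, 1, 3} = t * 0 + (a0 + a1 + a3) := by linear_combination b2 - b3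
  have f024 : v {0, 2, 4} = t * 1 + (a0 + a2 + a4) := by linear_combination (-1) * bl + f023 + f124 - f123
  have f014 : v {0, 1, 4} = t * 0 + (a0 + a1 + a4) := by
    have h := tie hv 0 0 1 4 1 2 3 0 1 3 1 2 4 (by decide) (by decide) (by decide) (by decide) (fun g => by ring)
    linear_combination h + f013 + f124 - f123
  have f134 : v {1, 3, 4} = t * 0 + (a1 + a3 + a4) := by
    have h := tie hv 0 1 3 4 0 1 2 0 1 3 1 2 4 (by decide) (by decide) (by decide) (by decide) (fun g => by ring)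
    linear_combination h + f013 + f124 - f012
  have f135 : v {1, 3, 5} = t * 0 + (a1 + a3 + a5) := by
    have h := tie hv 0 1 3 5 0 1 2 0 1 3 1 2 5 (by decide) (by decide) (by decide) (by decide) (fun g => by ring)
    linear_combination h + f013 + f125 - f012
  have f136 : v {1, 3, 6} = t * 0 + (a1 + a3 + a6) := by
    have h := tie hv 0 1 3 6 0 1 2 0 1 3 1 2 6 (by decide) (by decide) (by decide) (by decide) (fun g => by ring)
    linear_combination h + f013 + f126 - f012
  have f137 : v {1, 3, 7} = t * 0 + (a1 + a3 + a7) := by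
    have h := tie hv 0 1 3 7 0 1 2 0 1 3 1 2 7 (by decide) (by decide) (by decide) (by decide) (fun g => by ring)
    linear_combination h + f013 + f127 - f012
  have f138 : v {1, 3, 8} = t * 0 + (a1 + a3 + a8) := by
    have h := tie hv 0 1 3 8 0 1 2 0 1 3 1 2 8 (by decide) (by decide) (by decide) (by decide) (fun g => by ring)
    linear_combination h + f013 + f128 - f012
  have f234 : v {2, 3, 4} = t * 0 + (a2 + a3 + a4) := by
    have h := tie hv 0 2 3 4 0 1 2 0 2 3 1 2 4 (by decide) (by decide) (by decide) (by decide) (fun g => by ring)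
    linear_combination h + f023 + f124 - f012
  have f235 : v {2, 3, 5} = t * 0 + (a2 + a3 + a5) := by
    have h := tie hv 0 2 3 5 0 1 2 0 2 3 1 2 5 (by decide) (by decide) (by decide) (by decide) (fun g => by ring)
    linear_combination h + f023 + f125 - f012
  have f236 : v {2, 3, 6} = t * 0 + (a2 + a3 + a6) := by
    have h := tie hv 0 2 3 6 0 1 2 0 2 3 1 2 6 (by decide) (by decide) (by decide) (by decide) (fun g => by ring)
    linear_combination h + f023 + f126 - f012
  have f237 : v {2, 3, 7} = t * 0 + (a2 + a3 + a7) := by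
    have h := tie hv 0 2 3 7 0 1 2 0 2 3 1 2 7 (by decide) (by decide) (by decide) (by decide) (fun g => by ring)
    linear_combination h + f023 + f127 - f012
  have f238 : v {2, 3, 8} = t * 0 + (a2 + a3 + a8) := by
    have h := tie hv 0 2 3 8 0 1 2 0 2 3 1 2 8 (by decide) (by decide) (by decide) (by decide) (fun g => by ring)
    linear_combination h + f023 + f128 - f012
  have f025 : v {0, 2, 5} = t * 1 + (a0 + a2 + a5) := by
    have h := tie hv 1 0 2 5 1 2 4 0 2 4 1 2 5 (by decide) (by decide) (by decide) (by decide) (fun g => by ring)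
    linear_combination h + f024 + f125 - f124
  have f034 : v {0, 3, 4} = t * 0 + (a0 + a3 + a4) := by
    have h := tie hv 1 0 3 4 0 1 2 0 1 4 0 2 3 (by decide) (by decide) (by decide) (by decide) (fun g => by ring)
    linear_combination h + f014 + f023 - f012
  have f145 : v {1, 4, 5} = t * 0 + (a1 + a4 + a5) := by
    have h := tie hv 1 1 4 5 0 1 2 0 1 4 1 2 5 (by decide) (by decide) (by decide) (by decide) (fun g => by ring)
    linear_combination h + f014 + f125 - f012
  have f146 : v {1, 4, 6} = t * 0 + (a1 + a4 + a6) := by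
    have h := tie hv 1 1 4 6 0 1 2 0 1 4 1 2 6 (by decide) (by decide) (by decide) (by decide) (fun g => by ring)
    linear_combination h + f014 + f126 - f012
  have f147 : v {1, 4, 7} = t * 0 + (a1 + a4 + a7) := by
    have h := tie hv 1 1 4 7 0 1 2 0 1 4 1 2 7 (by decide) (by decide) (by decide) (by decide) (fun g => by ring)
    linear_combination h + f014 + f127 - f012
  have f148 : v {1, 4, 8} = t * 0 + (a1 + a4 + a8) := by
    have h := tie hv 1 1 4 8 0 1 2 0 1 4 1 2 8 (by decide) (by decide) (by decide) (by decide) (fun g => by ring)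
    linear_combination h + f014 + f128 - f012
  have f245 : v {2, 4, 5} = t * 1 + (a2 + a4 + a5) := by
    have h := tie hv 1 2 4 5 0 1 2 0 2 4 1 2 5 (by decide) (by decide) (by decide) (by decide) (fun g => by ring)
    linear_combination h + f024 + f125 - f012
  have f246 : v {2, 4, 6} = t * 1 + (a2 + a4 + a6) := by
    have h := tie hv 1 2 4 6 0 1 2 0 2 4 1 2 6 (by decide) (by decide) (by decide) (by decide) (fun g => by ring)
    linear_combination h + f024 + f126 - f012
  have f247 : v {2, 4, 7} = t * 1 + (a2 + a4 + a7) := by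
    have h := tie hv 1 2 4 7 0 1 2 0 2 4 1 2 7 (by decide) (by decide) (by decide) (by decide) (fun g => by ring)
    linear_combination h + f024 + f127 - f012
  have f248 : v {2, 4, 8} = t * 1 + (a2 + a4 + a8) := by
    have h := tie hv 1 2 4 8 0 1 2 0 2 4 1 2 8 (by decide) (by decide) (by decide) (by decide) (fun g => by ring)
    linear_combination h + f024 + f128 - f012
  have f345 : v {3, 4, 5} = t * 0 + (a3 + a4 + a5) := by
    have h := tie hv 1 3 4 5 0 1 2 0 1 4 2 3 5 (by decide) (by decide) (by decide) (by decide) (fun g => by ring)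
    linear_combination h + f014 + f235 - f012
  have f346 : v {3, 4, 6} = t * 0 + (a3 + a4 + a6) := by
    have h := tie hv 1 3 4 6 0 1 2 0 1 4 2 3 6 (by decide) (by decide) (by decide) (by decide) (fun g => by ring)
    linear_combination h + f014 + f236 - f012
  have f347 : v {3, 4, 7} = t * 0 + (a3 + a4 + a7) := by
    have h := tie hv 1 3 4 7 0 1 2 0 1 4 2 3 7 (by decide) (by decide) (by decide) (by decide) (fun g => by ring)
    linear_combination h + f014 + f237 - f012
  have f348 : v {3, 4, 8} = t * 0 + (a3 + a4 + a8) := by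
    have h := tie hv 1 3 4 8 0 1 2 0 1 4 2 3 8 (by decide) (by decide) (by decide) (by decide) (fun g => by ring)
    linear_combination h + f014 + f238 - f012
  have f015 : v {0, 1, 5} = t * 1 + (a0 + a1 + a5) := by
    have h := tie hv 2 0 1 5 0 2 3 0 1 3 0 2 5 (by decide) (by decide) (by decide) (by decide) (fun g => by ring)
    linear_combination h + f013 + f025 - f023
  have f016 : v {0, 1, 6} = t * 1 + (a0 + a1 + a6) := by
    have h := tie hv 2 0 1 6 2 3 5 0 2 5 1 3 6 (by decide) (by decide) (by decide) (by decide) (fun g => by ring)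
    linear_combination h + f025 + f136 - f235
  have f035 : v {0, 3, 5} = t * 1 + (a0 + a3 + a5) := by
    have h := tie hv 2 0 3 5 0 1 2 0 1 3 0 2 5 (by decide) (by decide) (by decide) (by decide) (fun g => by ring)
    linear_combination h + f013 + f025 - f012
  have f036 : v {0, 3, 6} = t * 1 + (a0 + a3 + a6) := by
    have h := tie hv 2 0 3 6 1 2 5 0 2 5 1 3 6 (by decide) (by decide) (by decide) (by decide) (fun g => by ring)
    linear_combination h + f025 + f136 - f125
  have f045 : v {0, 4, 5} = t * 1 + (a0 + a4 + a5) := by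
    have h := tie hv 2 0 4 5 0 1 2 0 1 4 0 2 5 (by decide) (by decide) (by decide) (by decide) (fun g => by ring)
    linear_combination h + f014 + f025 - f012
  have f156 : v {1, 5, 6} = t * 1 + (a1 + a5 + a6) := by
    have h := tie hv 2 1 5 6 0 2 3 0 2 5 1 3 6 (by decide) (by decide) (by decide) (by decide) (fun g => by ring)
    linear_combination h + f025 + f136 - f023
  have f157 : v {1, 5, 7} = t * 1 + (a1 + a5 + a7) := by
    have h := tie hv 2 1 5 7 0 2 3 0 2 5 1 3 7 (by decide) (by decide) (by decide) (by decide) (fun g => by ring)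
    linear_combination h + f025 + f137 - f023
  have f158 : v {1, 5, 8} = t * 1 + (a1 + a5 + a8) := by
    have h := tie hv 2 1 5 8 0 2 3 0 2 5 1 3 8 (by decide) (by decide) (by decide) (by decide) (fun g => by ring)
    linear_combination h + f025 + f138 - f023
  have f256 : v {2, 5, 6} = t * 1 + (a2 + a5 + a6) := by
    have h := tie hv 2 2 5 6 0 1 2 0 2 5 1 2 6 (by decide) (by decide) (by decide) (by decide) (fun g => by ring)
    linear_combination h + f025 + f126 - f012
  have f257 : v {2, 5, 7} = t * 1 + (a2 + a5 + a7) := by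
    have h := tie hv 2 2 5 7 0 1 2 0 2 5 1 2 7 (by decide) (by decide) (by decide) (by decide) (fun g => by ring)
    linear_combination h + f025 + f127 - f012
  have f258 : v {2, 5, 8} = t * 1 + (a2 + a5 + a8) := by
    have h := tie hv 2 2 5 8 0 1 2 0 2 5 1 2 8 (by decide) (by decide) (by decide) (by decide) (fun g => by ring)
    linear_combination h + f025 + f128 - f012
  have f356 : v {3, 5, 6} = t * 1 + (a3 + a5 + a6) := by
    have h := tie hv 2 3 5 6 0 1 2 0 2 5 1 3 6 (by decide) (by decide) (by decide) (by decide) (fun g => by ring)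
    linear_combination h + f025 + f136 - f012
  have f357 : v {3, 5, 7} = t * 1 + (a3 + a5 + a7) := by
    have h := tie hv 2 3 5 7 0 1 2 0 2 5 1 3 7 (by decide) (by decide) (by decide) (by decide) (fun g => by ring)
    linear_combination h + f025 + f137 - f012
  have f358 : v {3, 5, 8} = t * 1 + (a3 + a5 + a8) := by
    have h := tie hv 2 3 5 8 0 1 2 0 2 5 1 3 8 (by decide) (by decide) (by decide) (by decide) (fun g => by ring)
    linear_combination h + f025 + f138 - f012
  have f456 : v {4, 5, 6} = t * 1 + (a4 + a5 + a6) := by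
    have h := tie hv 2 4 5 6 0 1 2 0 2 5 1 4 6 (by decide) (by decide) (by decide) (by decide) (fun g => by ring)
    linear_combination h + f025 + f146 - f012
  have f457 : v {4, 5, 7} = t * 1 + (a4 + a5 + a7) := by
    have h := tie hv 2 4 5 7 0 1 2 0 2 5 1 4 7 (by decide) (by decide) (by decide) (by decide) (fun g => by ring)
    linear_combination h + f025 + f147 - f012
  have f458 : v {4, 5, 8} = t * 1 + (a4 + a5 + a8) := by
    have h := tie hv 2 4 5 8 0 1 2 0 2 5 1 4 8 (by decide) (by decide) (by decide) (by decide) (fun g => by ring)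
    linear_combination h + f025 + f148 - f012
  have f026 : v {0, 2, 6} = t * 2 + (a0 + a2 + a6) := by
    have h := tie hv 3 0 2 6 0 1 4 0 1 6 0 2 4 (by decide) (by decide) (by decide) (by decide) (fun g => by ring)
    linear_combination h + f016 + f024 - f014
  have f027 : v {0, 2, 7} = t * 2 + (a0 + a2 + a7) := by
    have h := tie hv 3 0 2 7 1 4 6 0 1 6 2 4 7 (by decide) (by decide) (by decide) (by decide) (fun g => by ring)
    linear_combination h + f016 + f247 - f146
  have f046 : v {0, 4, 6} = t * 2 + (a0 + a4 + a6) := by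
    have h := tie hv 3 0 4 6 0 1 2 0 1 6 0 2 4 (by decide) (by decide) (by decide) (by decide) (fun g => by ring)
    linear_combination h + f016 + f024 - f012
  have f047 : v {0, 4, 7} = t * 2 + (a0 + a4 + a7) := by
    have h := tie hv 3 0 4 7 1 2 6 0 1 6 2 4 7 (by decide) (by decide) (by decide) (by decide) (fun g => by ring)
    linear_combination h + f016 + f247 - f126
  have f056 : v {0, 5, 6} = t * 2 + (a0 + a5 + a6) := by
    have h := tie hv 3 0 5 6 0 1 2 0 1 6 0 2 5 (by decide) (by decide) (by decide) (by decide) (fun g => by ring)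
    linear_combination h + f016 + f025 - f012
  have f167 : v {1, 6, 7} = t * 1 + (a1 + a6 + a7) := by
    have h := tie hv 3 1 6 7 0 1 2 0 1 6 1 2 7 (by decide) (by decide) (by decide) (by decide) (fun g => by ring)
    linear_combination h + f016 + f127 - f012
  have f168 : v {1, 6, 8} = t * 1 + (a1 + a6 + a8) := by
    have h := tie hv 3 1 6 8 0 1 2 0 1 6 1 2 8 (by decide) (by decide) (by decide) (by decide) (fun g => by ring)
    linear_combination h + f016 + f128 - f012
  have f267 : v {2, 6, 7} = t * 2 + (a2 + a6 + a7) := by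
    have h := tie hv 3 2 6 7 0 1 4 0 1 6 2 4 7 (by decide) (by decide) (by decide) (by decide) (fun g => by ring)
    linear_combination h + f016 + f247 - f014
  have f268 : v {2, 6, 8} = t * 2 + (a2 + a6 + a8) := by
    have h := tie hv 3 2 6 8 0 1 4 0 1 6 2 4 8 (by decide) (by decide) (by decide) (by decide) (fun g => by ring)
    linear_combination h + f016 + f248 - f014
  have f367 : v {3, 6, 7} = t * 1 + (a3 + a6 + a7) := by
    have h := tie hv 3 3 6 7 0 1 2 0 1 6 2 3 7 (by decide) (by decide) (by decide) (by decide) (fun g => by ring)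
    linear_combination h + f016 + f237 - f012
  have f368 : v {3, 6, 8} = t * 1 + (a3 + a6 + a8) := by
    have h := tie hv 3 3 6 8 0 1 2 0 1 6 2 3 8 (by decide) (by decide) (by decide) (by decide) (fun g => by ring)
    linear_combination h + f016 + f238 - f012
  have f467 : v {4, 6, 7} = t * 2 + (a4 + a6 + a7) := by
    have h := tie hv 3 4 6 7 0 1 2 0 1 6 2 4 7 (by decide) (by decide) (by decide) (by decide) (fun g => by ring)
    linear_combination h + f016 + f247 - f012
  have f468 : v {4, 6, 8} = t * 2 + (a4 + a6 + a8) := by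
    have h := tie hv 3 4 6 8 0 1 2 0 1 6 2 4 8 (by decide) (by decide) (by decide) (by decide) (fun g => by ring)
    linear_combination h + f016 + f248 - f012
  have f567 : v {5, 6, 7} = t * 2 + (a5 + a6 + a7) := by
    have h := tie hv 3 5 6 7 0 1 2 0 1 6 2 5 7 (by decide) (by decide) (by decide) (by decide) (fun g => by ring)
    linear_combination h + f016 + f257 - f012
  have f568 : v {5, 6, 8} = t * 2 + (a5 + a6 + a8) := by
    have h := tie hv 3 5 6 8 0 1 2 0 1 6 2 5 8 (by decide) (by decide) (by decide) (by decide) (fun g => by ring)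
    linear_combination h + f016 + f258 - f012
  have f017 : v {0, 1, 7} = t * 2 + (a0 + a1 + a7) := by
    have h := tie hv 4 0 1 7 0 2 3 0 1 3 0 2 7 (by decide) (by decide) (by decide) (by decide) (fun g => by ring)
    linear_combination h + f013 + f027 - f023
  have f018 : v {0, 1, 8} = t * 2 + (a0 + a1 + a8) := by
    have h := tie hv 4 0 1 8 2 3 7 0 2 7 1 3 8 (by decide) (by decide) (by decide) (by decide) (fun g => by ring)
    linear_combination h + f027 + f138 - f237
  have f037 : v {0, 3, 7} = t * 2 + (a0 + a3 + a7) := by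
    have h := tie hv 4 0 3 7 0 1 2 0 1 3 0 2 7 (by decide) (by decide) (by decide) (by decide) (fun g => by ring)
    linear_combination h + f013 + f027 - f012
  have f038 : v {0, 3, 8} = t * 2 + (a0 + a3 + a8) := by
    have h := tie hv 4 0 3 8 1 2 7 0 2 7 1 3 8 (by decide) (by decide) (by decide) (by decide) (fun g => by ring)
    linear_combination h + f027 + f138 - f127
  have f057 : v {0, 5, 7} = t * 3 + (a0 + a5 + a7) := by
    have h := tie hv 4 0 5 7 0 1 2 0 1 5 0 2 7 (by decide) (by decide) (by decide) (by decide) (fun g => by ring)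
    linear_combination h + f015 + f027 - f012
  have f058 : v {0, 5, 8} = t * 3 + (a0 + a5 + a8) := by
    have h := tie hv 4 0 5 8 1 2 7 0 2 7 1 5 8 (by decide) (by decide) (by decide) (by decide) (fun g => by ring)
    linear_combination h + f027 + f158 - f127
  have f067 : v {0, 6, 7} = t * 3 + (a0 + a6 + a7) := by
    have h := tie hv 4 0 6 7 0 1 2 0 1 6 0 2 7 (by decide) (by decide) (by decide) (by decide) (fun g => by ring)
    linear_combination h + f016 + f027 - f012
  have f178 : v {1, 7, 8} = t * 2 + (a1 + a7 + a8) := by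
    have h := tie hv 4 1 7 8 0 2 3 0 2 7 1 3 8 (by decide) (by decide) (by decide) (by decide) (fun g => by ring)
    linear_combination h + f027 + f138 - f023
  have f278 : v {2, 7, 8} = t * 2 + (a2 + a7 + a8) := by
    have h := tie hv 4 2 7 8 0 1 2 0 2 7 1 2 8 (by decide) (by decide) (by decide) (by decide) (fun g => by ring)
    linear_combination h + f027 + f128 - f012
  have f378 : v {3, 7, 8} = t * 2 + (a3 + a7 + a8) := by
    have h := tie hv 4 3 7 8 0 1 2 0 2 7 1 3 8 (by decide) (by decide) (by decide) (by decide) (fun g => by ring)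
    linear_combination h + f027 + f138 - f012
  have f478 : v {4, 7, 8} = t * 2 + (a4 + a7 + a8) := by
    have h := tie hv 4 4 7 8 0 1 2 0 2 7 1 4 8 (by decide) (by decide) (by decide) (by decide) (fun g => by ring)
    linear_combination h + f027 + f148 - f012
  have f578 : v {5, 7, 8} = t * 3 + (a5 + a7 + a8) := by
    have h := tie hv 4 5 7 8 0 1 2 0 2 7 1 5 8 (by decide) (by decide) (by decide) (by decide) (fun g => by ring)
    linear_combination h + f027 + f158 - f012
  have f678 : v {6, 7, 8} = t * 3 + (a6 + a7 + a8) := by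
    have h := tie hv 4 6 7 8 0 1 2 0 2 7 1 6 8 (by decide) (by decide) (by decide) (by decide) (fun g => by ring)
    linear_combination h + f027 + f168 - f012
  have f028 : v {0, 2, 8} = t * 3 + (a0 + a2 + a8) := by
    have h := tie hv 5 0 2 8 0 1 4 0 1 8 0 2 4 (by decide) (by decide) (by decide) (by decide) (fun g => by ring)
    linear_combination h + f018 + f024 - f014
  have f048 : v {0, 4, 8} = t * 3 + (a0 + a4 + a8) := by
    have h := tie hv 5 0 4 8 0 1 2 0 1 8 0 2 4 (by decide) (by decide) (by decide) (by decide) (fun g => by ring)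
    linear_combination h + f018 + f024 - f012
  have f068 : v {0, 6, 8} = t * 4 + (a0 + a6 + a8) := by
    have h := tie hv 5 0 6 8 0 1 2 0 1 8 0 2 6 (by decide) (by decide) (by decide) (by decide) (fun g => by ring)
    linear_combination h + f018 + f026 - f012
  have f078 : v {0, 7, 8} = t * 4 + (a0 + a7 + a8) := by
    have h := tie hv 5 0 7 8 0 1 2 0 1 8 0 2 7 (by decide) (by decide) (by decide) (by decide) (fun g => by ring)
    linear_combination h + f018 + f027 - f012
  exact ⟨f012, f013, f014, f015, f016, f017, f018, f023, f024, f025, f026, f027, f028, f034, f035, f036, f037, f038, f045, f046, f047, f048, f056, f057, f058, f067, f068, f078, f123, f124, f125, f126, f127, f128, f134, f135, f136, f137, f138, f145, f146, f147, f148, f156, f157, f158, f167, f168, f178, f234, f235, f236, f237, f238, f245, f246, f247, f248, f256, f257, f258, f267, f268, f278, f345, f346, f347, f348, f356, f357, f358, f367, f368, f378, f456, f457, f458, f467, f468, f478, f567, f568, f578,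 f678⟩

end Pool.Agent.U300.Dressian
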